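import Pool.Agent.Y985.ME.Stm
import Pool.Agent.W92.DP.Dich
import Pool.Agent.W347.DPAA
import Pool.Agent.W571.DPad

/-!
# ME-REV (`S_REV`): few blocks are visited again

Job 1182 of project Y985-ME (owner helper985).
-/

set_option autoImplicit false

namespace Pool.Agent.Y523.ME

open H974 Finset H984P H984N Pool.Agent.Y985.ME

theorem okh : Ok (fun _ : Edg => (1/2:ℝ)) := fun _ => ⟨by norm_num, by norm_num⟩

/-- Markov's inequality -/
theorem mk {S : Finset Edg} {f : Finset Edg → ℝ} (hf : ∀ F, F ⊆ S → 0 ≤ f F) {t : ℝ} (ht : 0 < t) :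
    P S (fun F => t ≤ f F) ≤ E S f / t := by
  rw [le_div_iff₀ ht]
  show Ex _ S (fun F => ind (t ≤ f F)) * t ≤ Ex _ S f
  rw [← Ex_mul_right]
  apply Ex_mono okh
  intro F hF
  by_cases h : t ≤ f F
  · rw [ind_of h, one_mul]; exact h
  · rw [ind_not_of h, zero_mul]; exact hf F hF

open Classical in
/-- expected number of the blocks with an event -/
theorem ex_card {S : Finset Edg} (Q : Finset Vtx) (A : Vtx → Finset Edg → Prop) :
    E S (fun F => ((Q.filter (fun q => A q F)).card : ℝ)) = ∑ q ∈ Q, P S (A q) := by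
  show Ex _ S (fun F => ((Q.filter (fun q => A q F)).card : ℝ)) =
    ∑ q ∈ Q, Ex _ S (fun F => ind (A q F))
  rw [← Ex_sum]
  apply Ex_congr
  intro F _
  rw [Finset.card_filter]
  push_cast
  apply Finset.sum_congr rfl
  intro q _
  by_cases h : A q F
  · rw [if_pos h, ind_of h]
  · rw [if_neg h, ind_not_of h]

theorem div_near {W x a : ℤ} (hW : 0 < W) (h : |x / W - a| ≤ 3) :
    a * W - 4 * W ≤ x ∧ x ≤ a * W + 4 * W := by
  rw [abs_le] at h
  have h1 := Int.emod_add_mul_ediv x W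
  have h2 := Int.emod_nonneg x hW.ne'
  have h3 := Int.emod_lt_of_pos x hW
  have h4 : W * (a - 3) ≤ W * (x / W) := mul_le_mul_of_nonneg_left (by linarith [h.1]) hW.le
  have h5 : W * (x / W) ≤ W * (a + 3) := mul_le_mul_of_nonneg_left (by linarith [h.2]) hW.le
  constructor
  · linarith
  · linarith

theorem blk_near {W : ℤ} (hW : 0 < W) {v q : Vtx} (h : sd (blk W v) q ≤ 3) {d : ℕ}
    (hd : (d : ℤ) = 4 * W) :
    inR (q.1 * W - d) (q.1 * W + d) (q.2 * W - d) (q.2 * W + d) v := by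
  have h1 : |v.1 / W - q.1| ≤ 3 := le_trans (le_max_left _ _) h
  have h2 : |v.2 / W - q.2| ≤ 3 := le_trans (le_max_right _ _) h
  obtain ⟨a1, a2⟩ := div_near hW h1
  obtain ⟨b1, b2⟩ := div_near hW h2
  rw [hd]
  exact ⟨⟨a1, a2⟩, b1, b2⟩

theorem card_Bks (D : Dm) {n : ℝ} {W : ℤ} (hW : 1 ≤ W) (hW2 : (W : ℝ) ≤ n) (hok : D.Ok)
    (hw : ((D.r - D.l : ℤ) : ℝ) ≤ n) (hh : (D.h : ℝ) ≤ n) :
    ((Bks D W).card : ℝ) ≤ 9 * (n / W) ^ 2 := by
  have hW0 : (0 : ℝ) < W := by exact_mod_cast (by omega : 0 < W)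
  have hU : 1 ≤ n / W := by rw [le_div_iff₀ hW0]; linarith
  unfold Bks
  rw [Finset.card_product, Int.card_Icc, Int.card_Icc]
  have hl0 := hok.l_neg
  have hr0 := hok.r_pos
  have hh0 := hok.h_pos
  have e1 : W * (D.r / W) ≤ D.r := Int.mul_ediv_self_le (by omega)
  have e2 : D.l < W * (D.l / W) + W := by
    have h1 := Int.emod_add_mul_ediv D.l W
    have h3 := Int.emod_lt_of_pos D.l (by omega : 0 < W)
    linarith
  have e3 : W * (D.h / W) ≤ D.h := Int.mul_ediv_self_le (by omega)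
  have f1 : 0 ≤ D.r / W := Int.ediv_nonneg hr0.le (by omega)
  have f2 : D.l / W ≤ 0 := by
    by_contra hcon
    have : 1 ≤ D.l / W := by omega
    have h1 := Int.emod_add_mul_ediv D.l W
    have h2 := Int.emod_nonneg D.l (by omega : W ≠ 0)
    nlinarith
  have f3 : 0 ≤ D.h / W := Int.ediv_nonneg hh0.le (by omega)
  have g1 : (((D.r / W + 1 - D.l / W).toNat : ℕ) : ℝ) ≤ 3 * (n / W) := by
    have h1 : (((D.r / W + 1 - D.l / W).toNat : ℕ) : ℤ) = D.r / W + 1 - D.l / W :=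
      Int.toNat_of_nonneg (by omega)
    have h2 : (((D.r / W + 1 - D.l / W).toNat : ℕ) : ℝ) = ((D.r / W + 1 - D.l / W : ℤ) : ℝ) := by
      rw [← h1]; push_cast; rfl
    rw [h2]
    have h3 : W * (D.r / W + 1 - D.l / W) ≤ (D.r - D.l) + 2 * W := by linarith
    have h4 : (W : ℝ) * ((D.r / W + 1 - D.l / W : ℤ) : ℝ) ≤ ((D.r - D.l : ℤ) : ℝ) + 2 * W := by
      exact_mod_cast h3
    have h5 : ((D.r / W + 1 - D.l / W : ℤ) : ℝ) * W ≤ 3 * n := by linarith
    calc ((D.r / W + 1 - D.l / W : ℤ) : ℝ) ≤ 3 * n / W := by rwa [le_div_iff₀ hW0]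
      _ = 3 * (n / W) := by ring
  have g2 : (((D.h / W + 1 - 0).toNat : ℕ) : ℝ) ≤ 3 * (n / W) := by
    have h1 : (((D.h / W + 1 - 0).toNat : ℕ) : ℤ) = D.h / W + 1 - 0 :=
      Int.toNat_of_nonneg (by omega)
    have h2 : (((D.h / W + 1 - 0).toNat : ℕ) : ℝ) = ((D.h / W + 1 - 0 : ℤ) : ℝ) := by
      rw [← h1]; push_cast; rfl
    rw [h2]
    have h3 : W * (D.h / W + 1 - 0) ≤ D.h + 2 * W := by linarith
    have h4 : (W : ℝ) * ((D.h / W + 1 - 0 : ℤ) : ℝ) ≤ (D.h : ℝ) + 2 * W := by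
      exact_mod_cast h3
    have h5 : ((D.h / W + 1 - 0 : ℤ) : ℝ) * W ≤ 3 * n := by linarith
    calc ((D.h / W + 1 - 0 : ℤ) : ℝ) ≤ 3 * n / W := by rwa [le_div_iff₀ hW0]
      _ = 3 * (n / W) := by ring
  push_cast
  calc (((D.r / W + 1 - D.l / W).toNat : ℕ) : ℝ) * (((D.h / W + 1 - 0).toNat : ℕ) : ℝ)
      ≤ (3 * (n / W)) * (3 * (n / W)) :=
        mul_le_mul g1 g2 (Nat.cast_nonneg _) (by positivity)
    _ = 9 * (n / W) ^ 2 := by ring

open Classical in
/-- the blocks near a visited vertex -/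
noncomputable def SA (D : Dm) (W : ℤ) (ρ : ℝ) (v : Vtx) (F : Finset Edg) : Finset Vtx :=
  (Bks D W).filter (fun q => Tch D W q F ∧ ((sd (q.1 * W, q.2 * W) v : ℤ) : ℝ) ≤ ρ)

/-- four arms at the block `q` -/
def FA (W : ℤ) (d k : ℕ) (q : Vtx) (F : Finset Edg) : Prop :=
  H389NS.A4a (q.1 * W, q.2 * W) (d + 2) (k - 2) ↑F ∨
    Pool.Agent.W92.DP.A4d (q.1 * W, q.2 * W) (d + 2) (k - 2) ↑F

open Classical in
/-- the blocks in the bulk with four arms -/
noncomputable def SB (D : Dm) (W : ℤ) (d k : ℕ) (F : Finset Edg) : Finset Vtx :=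
  ((Bks D W).filter (fun q => (k : ℤ) < D.bd (q.1 * W, q.2 * W))).filter (fun q => FA W d k q F)

open Classical in
/-- the blocks near the boundary near the path -/
noncomputable def SC (D : Dm) (W : ℤ) (ρ : ℝ) (F : Finset Edg) : Finset Vtx :=
  ((Bks D W).filter (fun q => ((D.bd (q.1 * W, q.2 * W) : ℤ) : ℝ) ≤ ρ)).filter
    (fun q => Tch D W q F)

/-- the deterministic part -/
theorem rev_sub {D : Dm} (hok : D.Ok) {W : ℤ} (hW : 0 < W) {d k : ℕ} (hd : (d : ℤ) = 4 * W)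
    (hdk : d + 6 ≤ k) {ρ : ℝ} (hk : (k : ℝ) ≤ ρ) {F : Finset Edg} (hF : F ⊆ D.edges) {i : ℕ}
    (hi : i ≤ D.len F) :
    Rev D W i F ⊆ SA D W ρ (D.walk F i).1 F ∪ (SB D W d k F ∪ SC D W ρ F) := by
  classical
  intro q hq
  unfold Rev at hq
  rw [Finset.mem_filter] at hq
  obtain ⟨hqB, ⟨t1, ht1, h1⟩, t2, hit2, ht2, h2⟩ := hq
  have hT : Tch D W q F := ⟨t1, by omega, h1⟩
  have b1 := blk_near hW h1 hd
  have b2 : inR (q.1 * W - d) (q.1 * W + d) (q.2 * W - d) (q.2 * W + d) (D.walk F t2).1 := by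
    apply blk_near hW _ hd
    rw [h2]
    unfold sd
    simp
  rw [Finset.mem_union, Finset.mem_union]
  by_cases hin : inR (q.1 * W - k) (q.1 * W + k) (q.2 * W - k) (q.2 * W + k) (D.walk F i).1
  · left
    unfold SA
    rw [Finset.mem_filter]
    refine ⟨hqB, hT, ?_⟩
    obtain ⟨⟨c1, c2⟩, c3, c4⟩ := hin
    have h3 : sd (q.1 * W, q.2 * W) (D.walk F i).1 ≤ k := by
      unfold sd
      apply max_le
      · show |q.1 * W - (D.walk F i).1.1| ≤ k
        rw [abs_le]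
        constructor <;> linarith
      · show |q.2 * W - (D.walk F i).1.2| ≤ k
        rw [abs_le]
        constructor <;> linarith
    have h4 : ((sd (q.1 * W, q.2 * W) (D.walk F i).1 : ℤ) : ℝ) ≤ k := by exact_mod_cast h3
    exact h4.trans hk
  · right
    by_cases hbd : (k : ℤ) < D.bd (q.1 * W, q.2 * W)
    · left
      unfold SB
      rw [Finset.mem_filter, Finset.mem_filter]
      refine ⟨⟨hqB, hbd⟩, ?_⟩
      unfold Dm.bd at hbd
      rw [lt_min_iff, lt_min_iff, lt_min_iff] at hbd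
      obtain ⟨⟨e1, e2⟩, e3, e4⟩ := hbd
      simp only at e1 e2 e3 e4
      have hne : t2 ≠ i := by
        rintro rfl
        apply hin
        obtain ⟨⟨c1, c2⟩, c3, c4⟩ := b2
        have : (d : ℤ) ≤ k := by exact_mod_cast (by omega : d ≤ k)
        exact ⟨⟨by linarith, by linarith⟩, by linarith, by linarith⟩
      exact Pool.Agent.W92.DP.st_U D F hok hF (q.1 * W, q.2 * W) d k hdk
        (by show D.l < q.1 * W - k; linarith) (by show q.1 * W + k < D.r; linarith)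
        (by show 0 < q.2 * W - k; linarith) (by show q.2 * W + k < D.h; linarith)
        t1 i t2 ht1 (by omega) ht2 b1 b2 hin
    · right
      unfold SC
      rw [Finset.mem_filter, Finset.mem_filter]
      refine ⟨⟨hqB, ?_⟩, hT⟩
      rw [not_lt] at hbd
      have : ((D.bd (q.1 * W, q.2 * W) : ℤ) : ℝ) ≤ k := by exact_mod_cast hbd
      exact this.trans hk

theorem blk_sub {D : Dm} {c : Vtx} {k : ℕ} (h : (k : ℤ) < D.bd c) {k' : ℕ} (hk : k' ≤ k) :
    H12S.blk c k' ⊆ D.edges := by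
  unfold Dm.bd at h
  rw [lt_min_iff, lt_min_iff, lt_min_iff] at h
  obtain ⟨⟨e1, e2⟩, e3, e4⟩ := h
  have hk'' : (k' : ℤ) ≤ k := by exact_mod_cast hk
  unfold H12S.blk Dm.edges
  refine RE_subset ?_ ?_ ?_ ?_ <;> linarith

/-- ME-REV: only few blocks are visited again -/
theorem rev (hNear : S_NEAR) (hFM : S_FM) : S_REV := by
  classical
  intro κ hκ
  obtain ⟨CN, hCN, hN⟩ := hNear κ hκ
  obtain ⟨CF, hCF, hF⟩ := hFM κ hκ
  obtain ⟨Ca, hCa, hA⟩ := Pool.Agent.W347.DPAA.aa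
  obtain ⟨Cd, hCd, hDd⟩ := Pool.Agent.W571.DPad.ad Pool.Agent.W347.DPAA.aa
  set CB : ℝ := 9 * (Ca + Cd) * 24 ^ (5/4 : ℝ) with hCB
  have hCB0 : 0 < CB := by positivity
  refine ⟨1024 + CN + CB + CF, by positivity, ?_⟩
  intro D n W hsh hCW hCWn
  have hW1024 : (1024 : ℝ) ≤ W := by linarith
  have hW0 : (0 : ℝ) < W := by linarith
  have hW1 : (1 : ℤ) ≤ W := by exact_mod_cast (by linarith : (1 : ℝ) ≤ W)
  have hn0 : 0 < n := by nlinarith
  set U : ℝ := n / W with hU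
  have hU1024 : 1024 ≤ U := by
    rw [hU, le_div_iff₀ hW0]
    nlinarith
  have hU0 : 0 < U := by linarith
  have hU1 : 1 ≤ U := by linarith
  have hWn : (W : ℝ) / n = U⁻¹ := by rw [hU, inv_div]
  set ρ : ℝ := n * (W / n) ^ (1/5 : ℝ) with hρ
  have hnU : n = W * U := by rw [hU]; field_simp
  have hρ1 : ρ = n * U ^ (-(1/5) : ℝ) := by
    rw [hρ, hWn, Real.inv_rpow hU0.le, ← Real.rpow_neg hU0.le]
  have hρ2 : ρ = W * U ^ (4/5 : ℝ) := by
    rw [hρ1, hnU, mul_assoc]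
    congr 1
    nth_rewrite 1 [← Real.rpow_one U]
    rw [← Real.rpow_add hU0]
    norm_num
  have h256 : (256 : ℝ) ≤ U ^ (4/5 : ℝ) := by
    have h1 : (1024 : ℝ) ^ (4/5 : ℝ) = 256 := by
      have e : (1024 : ℝ) = 2 ^ (10 : ℝ) := by norm_num
      rw [e, ← Real.rpow_mul (by norm_num)]
      have e2 : (10 : ℝ) * (4/5) = 8 := by norm_num
      rw [e2]
      norm_num
    rw [← h1]
    exact Real.rpow_le_rpow (by norm_num) hU1024 (by norm_num)
  have hρ256 : 256 * (W : ℝ) ≤ ρ := by rw [hρ2]; nlinarith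
  have hWρ : (W : ℝ) ≤ ρ := by linarith
  have hρn : ρ ≤ n := by
    rw [hρ1]
    have : U ^ (-(1/5) : ℝ) ≤ 1 := Real.rpow_le_one_of_one_le_of_nonpos hU1 (by norm_num)
    nlinarith
  have hρ0 : 0 < ρ := by linarith
  -- the radii
  obtain ⟨w, hw⟩ : ∃ w : ℕ, (w : ℤ) = W := ⟨W.toNat, Int.toNat_of_nonneg (by omega)⟩
  have hwR : (w : ℝ) = W := by exact_mod_cast hw
  set d : ℕ := 4 * w with hd
  have hdZ : (d : ℤ) = 4 * W := by rw [hd]; push_cast; rw [hw]
  have hdR : (d : ℝ) = 4 * W := by exact_mod_cast hdZ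
  set k : ℕ := ⌊ρ / 2⌋₊ with hk
  have hk1 : (k : ℝ) ≤ ρ / 2 := Nat.floor_le (by positivity)
  have hk2 : ρ / 2 < (k : ℝ) + 1 := Nat.lt_floor_add_one _
  have hkρ : (k : ℝ) ≤ ρ := by linarith
  have hdk : d + 6 ≤ k := by
    have : (d : ℝ) + 6 < (k : ℝ) + 1 := by rw [hdR]; linarith
    have h2 : d + 6 < k + 1 := by exact_mod_cast this
    omega
  set x : ℝ := U ^ (7/4 - 1/20 : ℝ) with hx
  have hx0 : 0 < x := Real.rpow_pos_of_pos hU0 _
  -- the three bad events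
  have hmain : P D.edges (fun F => ∃ i ≤ D.len F,
      (1024 + CN + CB + CF) * x ≤ ((Rev D W i F).card : ℝ)) ≤
      P D.edges (fun F => ∃ v : Vtx, x ≤ ((SA D W ρ v F).card : ℝ)) +
        (P D.edges (fun F => x ≤ ((SB D W d k F).card : ℝ)) +
          P D.edges (fun F => x ≤ ((SC D W ρ F).card : ℝ))) := by
    refine le_trans ?_ ((Pr_or_le okh _ _ _).trans (add_le_add le_rfl (Pr_or_le okh _ _ _)))
    apply Pr_mono okh
    rintro F hFe ⟨i, hi, hcard⟩
    by_contra hcon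
    push Not at hcon
    obtain ⟨h1, h2, h3⟩ := hcon
    have h4 := rev_sub hsh.ok (by omega : 0 < W) hdZ hdk hkρ hFe hi
    have h5 := (Finset.card_le_card h4).trans ((Finset.card_union_le _ _).trans
      (add_le_add le_rfl (Finset.card_union_le _ _)))
    have h6 : ((Rev D W i F).card : ℝ) ≤ ((SA D W ρ (D.walk F i).1 F).card : ℝ) +
        (((SB D W d k F).card : ℝ) + ((SC D W ρ F).card : ℝ)) := by exact_mod_cast h5
    have h7 := h1 (D.walk F i).1
    nlinarith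
  refine hmain.trans ?_
  have hWn20 : ((W : ℝ) / n) ^ (1/20 : ℝ) = U ^ (-(1/20) : ℝ) := by
    rw [hWn, Real.inv_rpow hU0.le, ← Real.rpow_neg hU0.le]
  rw [hWn20]
  have hy0 : 0 < U ^ (-(1/20) : ℝ) := Real.rpow_pos_of_pos hU0 _
  -- (A)
  have hPA : P D.edges (fun F => ∃ v : Vtx, x ≤ ((SA D W ρ v F).card : ℝ)) ≤
      CN * U ^ (-(1/20) : ℝ) := by
    have h1 := hN D n W hsh (by linarith) (by nlinarith)
    rw [hWn20] at h1
    exact h1
  -- (B)
  have hPB : P D.edges (fun F => x ≤ ((SB D W d k F).card : ℝ)) ≤ CB * U ^ (-(1/20) : ℝ) := by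
    refine (mk (fun _ _ => Nat.cast_nonneg _) hx0).trans ?_
    rw [div_le_iff₀ hx0]
    have hE : E D.edges (fun F => ((SB D W d k F).card : ℝ)) ≤ CB * U := by
      unfold SB
      rw [ex_card]
      have hq : ∀ q ∈ (Bks D W).filter (fun q => (k : ℤ) < D.bd (q.1 * W, q.2 * W)),
          P D.edges (FA W d k q) ≤ (Ca + Cd) * (24 ^ (5/4 : ℝ) * U ^ (-1 : ℝ)) := by
        intro q hq
        rw [Finset.mem_filter] at hq
        have hsub : ∀ k' : ℕ, k' ≤ k → H12S.blk (q.1 * W, q.2 * W) k' ⊆ D.edges :=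
          fun k' hk' => blk_sub hq.2 hk'
        have h1 := hA (q.1 * W, q.2 * W) (d + 2) (k - 2) (by omega) (by omega) D.edges
          (hsub _ (by omega))
        have h2 := hDd (q.1 * W, q.2 * W) (d + 2) (k - 2) (by omega) (by omega) D.edges
          (hsub _ (by omega))
        have hr : (((d + 2 : ℕ) : ℝ) / ((k - 2 : ℕ) : ℝ)) ≤ 24 * U ^ (-(4/5) : ℝ) := by
          have hk3 : ((k - 2 : ℕ) : ℝ) = (k : ℝ) - 2 := by
            rw [Nat.cast_sub (by omega)]; norm_num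
          have hk4 : ρ / 4 ≤ (k : ℝ) - 2 := by linarith
          have hk5 : 0 < (k : ℝ) - 2 := by linarith
          rw [hk3, div_le_iff₀ hk5]
          push_cast
          rw [hdR]
          have h3 : 24 * U ^ (-(4/5) : ℝ) * (ρ / 4) = 6 * W := by
            rw [hρ2, Real.rpow_neg hU0.le]
            have : U ^ (4/5 : ℝ) ≠ 0 := by positivity
            field_simp
            norm_num
          have h4 : 24 * U ^ (-(4/5) : ℝ) * (ρ / 4) ≤ 24 * U ^ (-(4/5) : ℝ) * ((k : ℝ) - 2) :=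
            mul_le_mul_of_nonneg_left hk4 (by positivity)
          linarith
        have hr2 : (((d + 2 : ℕ) : ℝ) / ((k - 2 : ℕ) : ℝ)) ^ (5/4 : ℝ) ≤
            24 ^ (5/4 : ℝ) * U ^ (-1 : ℝ) := by
          refine (Real.rpow_le_rpow (by positivity) hr (by norm_num)).trans ?_
          rw [Real.mul_rpow (by norm_num) (by positivity), ← Real.rpow_mul hU0.le]
          norm_num
        have h3 := Pr_or_le okh D.edges
          (fun F => H389NS.A4a (q.1 * W, q.2 * W) (d + 2) (k - 2) ↑F)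
          (fun F => Pool.Agent.W92.DP.A4d (q.1 * W, q.2 * W) (d + 2) (k - 2) ↑F)
        have h4 := mul_le_mul_of_nonneg_left hr2 hCa.le
        have h5 := mul_le_mul_of_nonneg_left hr2 hCd.le
        calc P D.edges (FA W d k q) ≤ _ := h3
          _ ≤ Ca * (24 ^ (5/4 : ℝ) * U ^ (-1 : ℝ)) + Cd * (24 ^ (5/4 : ℝ) * U ^ (-1 : ℝ)) :=
              add_le_add (h1.trans h4) (h2.trans h5)
          _ = _ := by ring
      refine (Finset.sum_le_sum hq).trans ?_
      rw [Finset.sum_const, nsmul_eq_mul]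
      have hc1 : ((((Bks D W).filter (fun q => (k : ℤ) < D.bd (q.1 * W, q.2 * W))).card : ℕ) : ℝ) ≤
          9 * U ^ 2 := by
        have h1 := card_Bks D hW1 (by nlinarith) hsh.ok hsh.w_le hsh.h_le
        refine le_trans ?_ h1
        exact_mod_cast Finset.card_filter_le _ _
      have hpos : 0 ≤ (Ca + Cd) * (24 ^ (5/4 : ℝ) * U ^ (-1 : ℝ)) := by positivity
      refine (mul_le_mul_of_nonneg_right hc1 hpos).trans ?_
      rw [Real.rpow_neg_one, hCB]
      apply le_of_eq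
      field_simp
    have h2 : CB * U ≤ CB * U ^ (-(1/20) : ℝ) * x := by
      have e : U ≤ U ^ (-(1/20) : ℝ) * x := by
        rw [hx, ← Real.rpow_add hU0]
        nth_rewrite 1 [← Real.rpow_one U]
        exact Real.rpow_le_rpow_of_exponent_le hU1 (by norm_num)
      calc CB * U ≤ CB * (U ^ (-(1/20) : ℝ) * x) := mul_le_mul_of_nonneg_left e hCB0.le
        _ = _ := by ring
    exact hE.trans h2
  -- (C)
  have hPC : P D.edges (fun F => x ≤ ((SC D W ρ F).card : ℝ)) ≤ CF * U ^ (-(1/20) : ℝ) := by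
    refine (mk (fun _ _ => Nat.cast_nonneg _) hx0).trans ?_
    rw [div_le_iff₀ hx0]
    have hE : E D.edges (fun F => ((SC D W ρ F).card : ℝ)) ≤
        CF * U ^ (7/4 : ℝ) * (ρ / n) ^ (3/4 : ℝ) := by
      unfold SC
      rw [ex_card]
      exact hF D n ρ W hsh hW1 hWρ hρn
    refine hE.trans ?_
    have h1 : ρ / n = U ^ (-(1/5) : ℝ) := by
      rw [hρ1]
      field_simp
    rw [h1, ← Real.rpow_mul hU0.le, mul_assoc, ← Real.rpow_add hU0, mul_assoc, hx,
      ← Real.rpow_add hU0]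
    apply mul_le_mul_of_nonneg_left _ hCF.le
    exact Real.rpow_le_rpow_of_exponent_le hU1 (by norm_num)
  have hfin := add_le_add hPA (add_le_add hPB hPC)
  refine hfin.trans ?_
  nlinarith

end Pool.Agent.Y523.ME
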